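import Pool.Agent.Helper27.BG.St4

/-! Module EVO of project BG: evaluation of the integral of the square of the marginal. -/

set_option autoImplicit false

noncomputable section

namespace Pool.Agent.Helper27.BG

open Finset MeasureTheory

namespace EvoAux

theorem coeff_pow {κ : Type} [Fintype κ] [DecidableEq κ] (g g' : ℕ → ℕ) (n : ℕ) :
    (Pg g g' ^ Fintype.card κ).coeff n = ∑ r ∈ Fintype.piFinset (fun _ : κ => range 1055),
      if ∑ h, r h = n then ∏ h, ((g (r h) : ℤ) * g' (r h)) else 0 := by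
  have h1 : Pg g g' ^ Fintype.card κ = ∏ _h : κ, Pg g g' := by
    rw [Finset.prod_const, Finset.card_univ]
  rw [h1]
  unfold Pg
  rw [Finset.prod_univ_sum, Polynomial.finsetSum_coeff]
  refine Finset.sum_congr rfl fun r _ => ?_
  rw [Finset.prod_mul_distrib, Finset.prod_pow_eq_pow_sum, ← map_prod (Polynomial.C),
    Polynomial.coeff_C_mul_X_pow]
  by_cases h : ∑ h, r h = n
  · rw [if_pos h, if_pos h.symm]
  · rw [if_neg h, if_neg (fun h' => h h'.symm)]

theorem conv {κ : Type} [Fintype κ] [DecidableEq κ] (g g' : ℕ → ℕ) (t : ℕ) (f : ℕ → ℝ) :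
    ∑ r ∈ Fintype.piFinset (fun _ : κ => range 1055), (∏ h, ((g (r h) : ℝ) * g' (r h))) *
      (if ∑ h, r h ≤ t then f (t - ∑ h, r h) else 0) =
    ∑ n ∈ range (t + 1), (((Pg g g' ^ Fintype.card κ).coeff n : ℤ) : ℝ) * f (t - n) := by
  have h1 : ∀ n ∈ range (t + 1), (((Pg g g' ^ Fintype.card κ).coeff n : ℤ) : ℝ) * f (t - n) =
      ∑ r ∈ Fintype.piFinset (fun _ : κ => range 1055),
        if ∑ h, r h = n then (∏ h, ((g (r h) : ℝ) * g' (r h))) * f (t - n) else 0 := by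
    intro n _
    rw [coeff_pow, Int.cast_sum, Finset.sum_mul]
    refine Finset.sum_congr rfl fun r _ => ?_
    split_ifs
    · push_cast
      rfl
    · simp
  rw [Finset.sum_congr rfl h1, Finset.sum_comm]
  refine Finset.sum_congr rfl fun r _ => ?_
  rw [Finset.sum_ite_eq]
  by_cases h : ∑ h, r h ≤ t
  · rw [if_pos h, if_pos (Finset.mem_range.2 (Nat.lt_succ_of_le h))]
  · rw [if_neg h, if_neg (fun h' => h (Nat.le_of_lt_succ (Finset.mem_range.1 h'))), mul_zero]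

theorem ih_int {κ : Type} [Fintype κ] (j : ℕ) (f : (κ → ℝ) → ℝ) (hf : Continuous f) :
    IntegrableOn f (IH κ j) := by
  have hK : IsCompact (Set.Icc (0 : κ → ℝ) 1) := isCompact_Icc
  refine (hf.continuousOn.integrableOn_compact hK).mono_set ?_
  intro θ hθ
  exact ⟨fun h => (hθ.1 h).1, fun h => (hθ.1 h).2.le⟩

theorem ih_poly {κ : Type} [Fintype κ] (j : ℕ) (a b c : ℝ) :
    ∫ θ in IH κ j, (a + b * (∑ h, θ h - j) + c * (∑ h, θ h - j) ^ 2) =
      a * (volume (IH κ j)).toReal + b * (∫ θ in IH κ j, (∑ h, θ h - j)) +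
        c * (∫ θ in IH κ j, (∑ h, θ h - j) ^ 2) := by
  have i0 : IntegrableOn (fun _ : κ → ℝ => a) (IH κ j) := ih_int j _ (by fun_prop)
  have i1 : IntegrableOn (fun θ : κ → ℝ => b * (∑ h, θ h - j)) (IH κ j) :=
    ih_int j _ (by fun_prop)
  have i2 : IntegrableOn (fun θ : κ → ℝ => c * (∑ h, θ h - j) ^ 2) (IH κ j) :=
    ih_int j _ (by fun_prop)
  have e1 : ∫ θ in IH κ j, (a + b * (∑ h, θ h - j) + c * (∑ h, θ h - j) ^ 2) =
      (∫ θ in IH κ j, (a + b * (∑ h, θ h - j))) + ∫ θ in IH κ j, (c * (∑ h, θ h - j) ^ 2) :=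
    integral_add (i0.add i1) i2
  have e2 : ∫ θ in IH κ j, (a + b * (∑ h, θ h - j)) =
      (∫ _θ in IH κ j, a) + ∫ θ in IH κ j, (b * (∑ h, θ h - j)) :=
    integral_add i0 i1
  rw [e1, e2, integral_const_mul, integral_const_mul, setIntegral_const]
  simp only [smul_eq_mul, Measure.real]
  ring

theorem cw_eq (t0 t1 i : ℕ) (x : ℝ) : cw t0 t1 i x =
    (if t1 = t0 + i then (1 : ℝ) else 0) * (1 - x) +
      (if t1 = t0 + (i + 1) then (1 : ℝ) else 0) * x := by
  unfold cw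
  by_cases h : t1 = t0 + i
  · have h2 : ¬ t1 = t0 + (i + 1) := by omega
    rw [if_pos h, if_pos h, if_neg h2]
    ring
  · by_cases h2 : t1 = t0 + i + 1
    · have h3 : t1 = t0 + (i + 1) := by omega
      rw [if_neg h, if_neg h, if_pos h2, if_pos h3]
      ring
    · have h3 : ¬ t1 = t0 + (i + 1) := by omega
      rw [if_neg h, if_neg h, if_neg h2, if_neg h3]
      ring

theorem ih_cw {κ : Type} [Fintype κ] (j t0 t1 t2 i i' : ℕ) (E0 E1 E2 : ℝ)
    (h0 : (volume (IH κ j)).toReal = E0) (h1 : ∫ θ in IH κ j, (∑ h, θ h - j) = E1)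
    (h2 : ∫ θ in IH κ j, (∑ h, θ h - j) ^ 2 = E2) :
    ∫ θ in IH κ j, cw t0 t1 i (∑ h, θ h - (j : ℕ)) * cw t0 t2 i' (∑ h, θ h - (j : ℕ)) =
      (E0 - 2 * E1 + E2) * ((if t1 = t0 + i then (1 : ℝ) else 0) *
        (if t2 = t0 + i' then (1 : ℝ) else 0)) +
      (E1 - E2) * ((if t1 = t0 + i then (1 : ℝ) else 0) *
        (if t2 = t0 + (i' + 1) then (1 : ℝ) else 0) +
        (if t1 = t0 + (i + 1) then (1 : ℝ) else 0) * (if t2 = t0 + i' then (1 : ℝ) else 0)) +
      E2 * ((if t1 = t0 + (i + 1) then (1 : ℝ) else 0) *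
        (if t2 = t0 + (i' + 1) then (1 : ℝ) else 0)) := by
  generalize ha : (if t1 = t0 + i then (1 : ℝ) else 0) = a
  generalize hb : (if t1 = t0 + (i + 1) then (1 : ℝ) else 0) = b
  generalize ha' : (if t2 = t0 + i' then (1 : ℝ) else 0) = a'
  generalize hb' : (if t2 = t0 + (i' + 1) then (1 : ℝ) else 0) = b'
  have e : ∀ θ : κ → ℝ, cw t0 t1 i (∑ h, θ h - (j : ℕ)) * cw t0 t2 i' (∑ h, θ h - (j : ℕ)) =
      a * a' + (a * b' + b * a' - 2 * (a * a')) * (∑ h, θ h - j) +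
        (a * a' - a * b' - b * a' + b * b') * (∑ h, θ h - j) ^ 2 := by
    intro θ
    rw [cw_eq, cw_eq, ha, hb, ha', hb']
    ring
  simp_rw [e]
  rw [ih_poly, h0, h1, h2]
  ring

theorem bil4 (S : Finset ℕ) (P0 P1 Q0 Q1 : ℕ → ℕ → ℝ) (x y z : ℝ) :
    ∑ a ∈ S, ∑ i' ∈ S, ∑ t1 ∈ S, ∑ t2 ∈ S, (x * (P0 a t1 * Q0 i' t2) +
      y * (P0 a t1 * Q1 i' t2 + P1 a t1 * Q0 i' t2) + z * (P1 a t1 * Q1 i' t2)) =
    x * ((∑ a ∈ S, ∑ t ∈ S, P0 a t) * (∑ a ∈ S, ∑ t ∈ S, Q0 a t)) +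
    y * ((∑ a ∈ S, ∑ t ∈ S, P0 a t) * (∑ a ∈ S, ∑ t ∈ S, Q1 a t) +
      (∑ a ∈ S, ∑ t ∈ S, P1 a t) * (∑ a ∈ S, ∑ t ∈ S, Q0 a t)) +
    z * ((∑ a ∈ S, ∑ t ∈ S, P1 a t) * (∑ a ∈ S, ∑ t ∈ S, Q1 a t)) := by
  have key : ∀ P Q : ℕ → ℕ → ℝ, ∑ a ∈ S, ∑ i' ∈ S, ∑ t1 ∈ S, ∑ t2 ∈ S, P a t1 * Q i' t2 =
      (∑ a ∈ S, ∑ t ∈ S, P a t) * (∑ a ∈ S, ∑ t ∈ S, Q a t) := by
    intro P Q
    rw [Finset.sum_mul_sum]
    refine Finset.sum_congr rfl fun a _ => Finset.sum_congr rfl fun i' _ => ?_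
    rw [Finset.sum_mul_sum]
  rw [← key, ← key, ← key, ← key]
  simp only [Finset.mul_sum, ← Finset.sum_add_distrib]

theorem kap_eq (g h : ℕ → ℕ) (hh : ∀ t, 1055 ≤ t → h t = 0) (t0 : ℕ) :
    ∑ a ∈ range 1055, ∑ t ∈ range 1055, ((h t : ℝ) * g a) *
      (if t = t0 + a then (1 : ℝ) else 0) = (kap g h t0 : ℝ) := by
  unfold kap
  rw [Int.cast_sum]
  refine Finset.sum_congr rfl fun a _ => ?_
  have h1 : ∀ t ∈ range 1055, ((h t : ℝ) * g a) * (if t = t0 + a then (1 : ℝ) else 0) =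
      if t = t0 + a then (h t : ℝ) * g a else 0 := by
    intro t _
    split_ifs <;> ring
  rw [Finset.sum_congr rfl h1, Finset.sum_ite_eq']
  by_cases h2 : t0 + a < 1055
  · rw [if_pos (Finset.mem_range.2 h2)]
    push_cast
    ring
  · rw [if_neg (fun h' => h2 (Finset.mem_range.1 h')), hh _ (by omega)]
    simp

theorem kap_eq1 (g h : ℕ → ℕ) (hh : ∀ t, 1055 ≤ t → h t = 0) (t0 : ℕ) :
    ∑ a ∈ range 1055, ∑ t ∈ range 1055, ((h t : ℝ) * g a) *
      (if t = t0 + (a + 1) then (1 : ℝ) else 0) = (kap g h (t0 + 1) : ℝ) := by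
  rw [← kap_eq g h hh (t0 + 1)]
  refine Finset.sum_congr rfl fun a _ => Finset.sum_congr rfl fun t _ => ?_
  rw [show t0 + (a + 1) = t0 + 1 + a from by ring]

section split
variable {ι : Type} [Fintype ι] [DecidableEq ι]

/-- glue -/
def gl (m : ι) (a : ℕ) (r : {h : ι // h ≠ m} → ℕ) : ι → ℕ :=
  fun j => if h : j = m then a else r ⟨j, h⟩

theorem gl_self (m : ι) (a : ℕ) (r : {h : ι // h ≠ m} → ℕ) : gl m a r m = a := by
  unfold gl
  rw [dif_pos rfl]

theorem gl_ne (m : ι) (a : ℕ) (r : {h : ι // h ≠ m} → ℕ) (j : {h : ι // h ≠ m}) :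
    gl m a r j = r j := by
  unfold gl
  rw [dif_neg j.2]

theorem gl_update (m : ι) (a a' : ℕ) (r : {h : ι // h ≠ m} → ℕ) :
    Function.update (gl m a r) m a' = gl m a' r := by
  funext j
  by_cases h : j = m
  · subst h
    rw [Function.update_self, gl_self]
  · rw [Function.update_of_ne h]
    unfold gl
    rw [dif_neg h, dif_neg h]

theorem erase_sum (m : ι) (f : ι → ℕ) :
    ∑ h ∈ univ.erase m, f h = ∑ h : {h : ι // h ≠ m}, f h :=
  Finset.sum_subtype _ (fun x => by simp) f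

theorem prod_split (m : ι) (f : ι → ℝ) : ∏ h, f h = f m * ∏ h : {h : ι // h ≠ m}, f h := by
  rw [← Finset.mul_prod_erase univ f (mem_univ m)]
  congr 1
  exact Finset.prod_subtype _ (fun x => by simp) f

theorem sum_split (m : ι) (F : (ι → ℕ) → ℝ) :
    ∑ i ∈ Fintype.piFinset (fun _ : ι => range 1055), F i =
      ∑ r ∈ Fintype.piFinset (fun _ : {h : ι // h ≠ m} => range 1055),
        ∑ a ∈ range 1055, F (gl m a r) := by
  rw [← Finset.sum_product']
  refine Finset.sum_nbij' (fun i => ((fun j : {h : ι // h ≠ m} => i j), i m))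
    (fun x => gl m x.2 x.1) ?_ ?_ ?_ ?_ ?_
  · intro i hi
    rw [Fintype.mem_piFinset] at hi
    rw [Finset.mem_product, Fintype.mem_piFinset]
    exact ⟨fun j => hi j, hi m⟩
  · intro x hx
    rw [Finset.mem_product, Fintype.mem_piFinset] at hx
    rw [Fintype.mem_piFinset]
    intro j
    by_cases h : j = m
    · subst h
      rw [gl_self]
      exact hx.2
    · have := gl_ne m x.2 x.1 ⟨j, h⟩
      rw [this]
      exact hx.1 _
  · intro i _
    funext j
    by_cases h : j = m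
    · subst h
      exact gl_self _ _ _
    · exact gl_ne m _ _ ⟨j, h⟩
  · intro x _
    refine Prod.ext ?_ ?_
    · funext j
      exact gl_ne m _ _ j
    · exact gl_self _ _ _
  · intro i _
    refine congrArg F ?_
    funext j
    by_cases h : j = m
    · subst h
      exact (gl_self _ _ _).symm
    · exact (gl_ne m (i m) (fun j : {h : ι // h ≠ m} => i j) ⟨j, h⟩).symm

/-- the sum for a pair of products -/
def OmG (m : ι) (g h g' h' : ℕ → ℕ) (t0 : ℕ) : ℝ :=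
  ∑ i ∈ Fintype.piFinset (fun _ : ι => range 1055), ∑ i' ∈ range 1055,
    ∑ t1 ∈ range 1055, ∑ t2 ∈ range 1055, ((h t1 : ℝ) * ∏ a, (g (i a) : ℝ)) *
      ((h' t2 : ℝ) * ∏ a, (g' (Function.update i m i' a) : ℝ)) *
      (volume (cs2 m i i' t0 t1 t2)).toReal

/-- the value for the complementary index `j` -/
def FJ (g h g' h' : ℕ → ℕ) (t0 j : ℕ) : ℝ := (1 / 1000 : ℝ) ^ 50 / (Nat.factorial 50 : ℝ) *
  (((kap g h t0 : ℝ) * (kap g' h' t0 : ℝ)) * ((eI 0 j : ℝ) - 2 * eI 1 j + eI 2 j) +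
  ((kap g h t0 : ℝ) * (kap g' h' (t0 + 1) : ℝ) +
    (kap g h (t0 + 1) : ℝ) * (kap g' h' t0 : ℝ)) * ((eI 1 j : ℝ) - eI 2 j) +
  ((kap g h (t0 + 1) : ℝ) * (kap g' h' (t0 + 1) : ℝ)) * (eI 2 j : ℝ))

theorem omg_eq (hIrw : StIrw) (hCs2 : StCs2) (m : ι) (hc : Fintype.card ι = 49)
    (g h g' h' : ℕ → ℕ) (hh : ∀ t, 1055 ≤ t → h t = 0) (hh' : ∀ t, 1055 ≤ t → h' t = 0)
    (t0 : ℕ) : OmG m g h g' h' t0 =
      (1 / 1000 : ℝ) ^ 50 / (Nat.factorial 50 : ℝ) * (Dn g h g' h' t0 : ℝ) := by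
  have hcard : Fintype.card {h : ι // h ≠ m} = 48 := by
    rw [Fintype.card_subtype_compl, Fintype.card_subtype_eq, hc]
  -- the moments
  have hf48 : (Nat.factorial 50 : ℝ) = 50 * 49 * (Nat.factorial 48 : ℝ) := by
    have : Nat.factorial 50 = 50 * (49 * Nat.factorial 48) := rfl
    rw [this]
    push_cast
    ring
  have hf49 : (Nat.factorial 49 : ℝ) = 49 * (Nat.factorial 48 : ℝ) := by
    have : Nat.factorial 49 = 49 * Nat.factorial 48 := rfl
    rw [this]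
    push_cast
    ring
  have hf0 : (Nat.factorial 48 : ℝ) ≠ 0 := by exact_mod_cast Nat.factorial_ne_zero 48
  have hE : ∀ j : ℕ, (volume (IH {h : ι // h ≠ m} j)).toReal =
      (eI 0 j : ℝ) / (Nat.factorial 50 : ℝ) ∧
      ∫ θ in IH {h : ι // h ≠ m} j, (∑ h, θ h - j) = (eI 1 j : ℝ) / (Nat.factorial 50 : ℝ) ∧
      ∫ θ in IH {h : ι // h ≠ m} j, (∑ h, θ h - j) ^ 2 =
        (eI 2 j : ℝ) / (Nat.factorial 50 : ℝ) := by
    intro j
    obtain ⟨h0, h1, h2⟩ := hIrw {h : ι // h ≠ m} 48 j hcard (by norm_num)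
    rw [show (48 + 1 : ℕ) = 49 from rfl] at h1 h2
    rw [show (48 + 2 : ℕ) = 50 from rfl] at h2
    refine ⟨?_, ?_, ?_⟩
    · rw [h0, eI, if_pos rfl, hf48]
      push_cast
      field_simp
      ring
    · rw [h1, eI, if_neg (by norm_num), if_pos rfl, hf48, hf49]
      push_cast
      field_simp
      ring
    · rw [h2, eI, if_neg (by norm_num), if_neg (by norm_num), hf48, hf49]
      push_cast
      field_simp
      ring
  -- rewrite the sum
  have hstep : OmG m g h g' h' t0 =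
      ∑ r ∈ Fintype.piFinset (fun _ : {h : ι // h ≠ m} => range 1055),
        (∏ h, ((g (r h) : ℝ) * g' (r h))) *
        (if ∑ h, r h ≤ t0 then FJ g h g' h' t0 (t0 - ∑ h, r h) else 0) := by
    unfold OmG FJ
    rw [sum_split m]
    refine Finset.sum_congr rfl fun r _ => ?_
    -- the volume
    have hvol : ∀ a i' t1 t2 : ℕ, (volume (cs2 m (gl m a r) i' t0 t1 t2)).toReal =
        if ∑ h, r h ≤ t0 then (1 / 1000 : ℝ) ^ 50 / (Nat.factorial 50 : ℝ) *
          (((eI 0 (t0 - ∑ h, r h) : ℝ) - 2 * eI 1 (t0 - ∑ h, r h) + eI 2 (t0 - ∑ h, r h)) *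
            ((if t1 = t0 + a then (1 : ℝ) else 0) * (if t2 = t0 + i' then (1 : ℝ) else 0)) +
          ((eI 1 (t0 - ∑ h, r h) : ℝ) - eI 2 (t0 - ∑ h, r h)) *
            ((if t1 = t0 + a then (1 : ℝ) else 0) *
              (if t2 = t0 + (i' + 1) then (1 : ℝ) else 0) +
            (if t1 = t0 + (a + 1) then (1 : ℝ) else 0) *
              (if t2 = t0 + i' then (1 : ℝ) else 0)) +
          (eI 2 (t0 - ∑ h, r h) : ℝ) * ((if t1 = t0 + (a + 1) then (1 : ℝ) else 0) *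
            (if t2 = t0 + (i' + 1) then (1 : ℝ) else 0))) else 0 := by
      intro a i' t1 t2
      have hs : ∑ h ∈ univ.erase m, gl m a r h = ∑ h, r h := by
        rw [erase_sum]
        exact Finset.sum_congr rfl fun j _ => gl_ne m a r j
      rw [hCs2 ι m (gl m a r) i' t0 t1 t2, hs, gl_self, hc]
      by_cases hle : ∑ h, r h ≤ t0
      · rw [if_pos hle, if_pos hle]
        obtain ⟨h0, h1, h2⟩ := hE (t0 - ∑ h, r h)
        rw [ih_cw (t0 - ∑ h, r h) t0 t1 t2 a i' _ _ _ h0 h1 h2]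
        ring
      · rw [if_neg hle, if_neg hle]
    have hprod : ∀ (g : ℕ → ℕ) (a : ℕ), ∏ j, (g (gl m a r j) : ℝ) =
        (g a : ℝ) * ∏ j, (g (r j) : ℝ) := by
      intro g a
      rw [prod_split m, gl_self]
      congr 1
      exact Finset.prod_congr rfl fun j _ => by rw [gl_ne]
    by_cases hle : ∑ h, r h ≤ t0
    · rw [if_pos hle]
      generalize hj : t0 - ∑ h, r h = j at hvol ⊢
      have hterm : ∀ a ∈ range 1055, ∀ i' ∈ range 1055, ∀ t1 ∈ range 1055, ∀ t2 ∈ range 1055,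
          ((h t1 : ℝ) * ∏ b, (g (gl m a r b) : ℝ)) *
            ((h' t2 : ℝ) * ∏ b, (g' (Function.update (gl m a r) m i' b) : ℝ)) *
            (volume (cs2 m (gl m a r) i' t0 t1 t2)).toReal =
          ((∏ b, ((g (r b) : ℝ) * g' (r b))) * ((1 / 1000 : ℝ) ^ 50 / (Nat.factorial 50 : ℝ)) *
            ((eI 0 j : ℝ) - 2 * eI 1 j + eI 2 j)) *
            ((((h t1 : ℝ) * g a) * (if t1 = t0 + a then (1 : ℝ) else 0)) *
              (((h' t2 : ℝ) * g' i') * (if t2 = t0 + i' then (1 : ℝ) else 0))) +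
          ((∏ b, ((g (r b) : ℝ) * g' (r b))) * ((1 / 1000 : ℝ) ^ 50 / (Nat.factorial 50 : ℝ)) *
            ((eI 1 j : ℝ) - eI 2 j)) *
            ((((h t1 : ℝ) * g a) * (if t1 = t0 + a then (1 : ℝ) else 0)) *
              (((h' t2 : ℝ) * g' i') * (if t2 = t0 + (i' + 1) then (1 : ℝ) else 0)) +
            (((h t1 : ℝ) * g a) * (if t1 = t0 + (a + 1) then (1 : ℝ) else 0)) *
              (((h' t2 : ℝ) * g' i') * (if t2 = t0 + i' then (1 : ℝ) else 0))) +
          ((∏ b, ((g (r b) : ℝ) * g' (r b))) * ((1 / 1000 : ℝ) ^ 50 / (Nat.factorial 50 : ℝ)) *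
            (eI 2 j : ℝ)) *
            ((((h t1 : ℝ) * g a) * (if t1 = t0 + (a + 1) then (1 : ℝ) else 0)) *
              (((h' t2 : ℝ) * g' i') * (if t2 = t0 + (i' + 1) then (1 : ℝ) else 0))) := by
        intro a _ i' _ t1 _ t2 _
        rw [hvol, if_pos hle, gl_update, hprod, hprod, Finset.prod_mul_distrib]
        ring
      rw [Finset.sum_congr rfl fun a ha => Finset.sum_congr rfl fun i' hi' =>
        Finset.sum_congr rfl fun t1 ht1 => Finset.sum_congr rfl fun t2 ht2 =>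
          hterm a ha i' hi' t1 ht1 t2 ht2]
      rw [bil4 (range 1055)
        (fun a t => ((h t : ℝ) * g a) * (if t = t0 + a then (1 : ℝ) else 0))
        (fun a t => ((h t : ℝ) * g a) * (if t = t0 + (a + 1) then (1 : ℝ) else 0))
        (fun a t => ((h' t : ℝ) * g' a) * (if t = t0 + a then (1 : ℝ) else 0))
        (fun a t => ((h' t : ℝ) * g' a) * (if t = t0 + (a + 1) then (1 : ℝ) else 0))]
      rw [kap_eq g h hh, kap_eq1 g h hh, kap_eq g' h' hh', kap_eq1 g' h' hh']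
      ring
    · rw [if_neg hle, mul_zero]
      refine Finset.sum_eq_zero fun a _ => Finset.sum_eq_zero fun i' _ =>
        Finset.sum_eq_zero fun t1 _ => Finset.sum_eq_zero fun t2 _ => ?_
      rw [hvol, if_neg hle, mul_zero]
  rw [hstep, conv g g' t0 (FJ g h g' h' t0), hcard]
  unfold Dn QQ FJ
  push_cast
  simp only [Finset.mul_sum, ← Finset.sum_add_distrib, ← Finset.sum_sub_distrib]
  refine Finset.sum_congr rfl fun n _ => ?_
  ring

end split

theorem gB_zero : ∀ i, 1055 ≤ i → hB i = 0 := by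
  intro i hi
  have h1 : HB < 2 ^ (17 * 1055) := by decide +kernel
  unfold hB
  rw [Nat.div_eq_of_lt, Nat.zero_mod]
  exact h1.trans_le (Nat.pow_le_pow_right (by norm_num) (by omega))

theorem gA_zero : ∀ i, 1055 ≤ i → hA i = 0 := by
  intro i hi
  have h1 : HA < 2 ^ (17 * 1055) := by decide +kernel
  unfold hA
  rw [Nat.div_eq_of_lt, Nat.zero_mod]
  exact h1.trans_le (Nat.pow_le_pow_right (by norm_num) (by omega))

theorem Pg_comm (g g' : ℕ → ℕ) : Pg g g' = Pg g' g := by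
  unfold Pg
  refine Finset.sum_congr rfl fun i _ => ?_
  rw [mul_comm (g i : ℤ)]

theorem Dn_comm (g h g' h' : ℕ → ℕ) (t : ℕ) : Dn g h g' h' t = Dn g' h' g h t := by
  unfold Dn QQ
  rw [Pg_comm g g']
  ring

end EvoAux

open EvoAux

theorem hEvo : StEvo := by
  intro hIrw hCs2 ι _ _ m hc φ
  have h1 : OR m φ = ∑ t0 ∈ range 1055, φ t0 * (OmG m gB hB gB hB t0 - OmG m gB hB gA hA t0 -
      OmG m gA hA gB hB t0 + OmG m gA hA gA hA t0) := by
    unfold OR OmG
    have e1 : ∀ i ∈ Fintype.piFinset (fun _ : ι => range 1055),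
        ∑ i' ∈ range 1055, ∑ t0 ∈ range 1055, ∑ t1 ∈ range 1055, ∑ t2 ∈ range 1055,
          φ t0 * FN i t1 * FN (Function.update i m i') t2 *
            (volume (cs2 m i i' t0 t1 t2)).toReal =
        ∑ t0 ∈ range 1055, ∑ i' ∈ range 1055, ∑ t1 ∈ range 1055, ∑ t2 ∈ range 1055,
          φ t0 * FN i t1 * FN (Function.update i m i') t2 *
            (volume (cs2 m i i' t0 t1 t2)).toReal := fun i _ => Finset.sum_comm
    rw [Finset.sum_congr rfl e1, Finset.sum_comm]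
    refine Finset.sum_congr rfl fun t0 _ => ?_
    simp only [← Finset.sum_add_distrib, ← Finset.sum_sub_distrib]
    rw [Finset.mul_sum]
    refine Finset.sum_congr rfl fun i _ => ?_
    rw [Finset.mul_sum]
    refine Finset.sum_congr rfl fun i' _ => ?_
    rw [Finset.mul_sum]
    refine Finset.sum_congr rfl fun t1 _ => ?_
    rw [Finset.mul_sum]
    refine Finset.sum_congr rfl fun t2 _ => ?_
    unfold FN
    ring
  rw [h1, Finset.sum_div]
  refine Finset.sum_congr rfl fun t0 _ => ?_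
  rw [omg_eq hIrw hCs2 m hc gB hB gB hB gB_zero gB_zero,
    omg_eq hIrw hCs2 m hc gB hB gA hA gB_zero gA_zero,
    omg_eq hIrw hCs2 m hc gA hA gB hB gA_zero gB_zero,
    omg_eq hIrw hCs2 m hc gA hA gA hA gA_zero gA_zero, Dn_comm gB hB gA hA]
  unfold Dt
  generalize (Nat.factorial 50 : ℝ) = F
  push_cast
  rw [one_div, inv_pow]
  ring

end Pool.Agent.Helper27.BG
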