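import Pool.Agent.Helper27.BG.St1

/-! Module LIN of project BG: the linear form is linear. -/

set_option autoImplicit false

namespace Pool.Agent.Helper27.BG

open Finset
open Pool.Agent.Helper90.MT (lam mat wt szA prt szU VV DD piDD Ok EqD Avd HH Ytil offD MP MD TT)

theorem hLin : StLin := by
  intro α ι _ _ _ _ pr sh Y Y' c n
  have h1 : ∀ b, lam pr (fun a => Y a + Y' a) b = lam pr Y b + lam pr Y' b := by
    intro b
    unfold lam
    rw [← Finset.sum_add_distrib]
    exact Finset.sum_congr rfl fun a _ => mul_add _ _ _
  have h2 : ∀ b, lam pr (fun a => c * Y a) b = c * lam pr Y b := by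
    intro b
    unfold lam
    rw [Finset.mul_sum]
    exact Finset.sum_congr rfl fun a _ => by ring
  constructor
  · unfold LF
    rw [← Finset.sum_add_distrib]
    refine Finset.sum_congr rfl fun b _ => ?_
    split_ifs
    · exact h1 b
    · rw [add_zero]
  · unfold LF
    rw [Finset.mul_sum]
    refine Finset.sum_congr rfl fun b _ => ?_
    split_ifs
    · exact h2 b
    · rw [mul_zero]

end Pool.Agent.Helper27.BG
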